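import Pool.Agent.H838R3.TuranRefl2

/-!
# The lower bound `m (m - 1) (m - 3) / 18` for the number of edges of a covering 3-graph inside a
set of `m` vertices (de Caen)
-/

set_option autoImplicit false

open Finset

namespace Pool.Agent.Q276.Dih

open Pool.Agent.H838R3.TuranRefl

variable {V : Type} [Fintype V] [DecidableEq V]

/-- non-edge inside `R` -/
def h3 (G : Finset (Finset V)) (R : Finset V) (x y z : V) : ℤ :=
  if (x ∈ R ∧ y ∈ R ∧ z ∈ R) ∧ (x ≠ y ∧ x ≠ z ∧ y ≠ z) ∧ ({x, y, z} : Finset V) ∉ G then 1 else 0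

/-- edge inside `R` -/
def g3 (G : Finset (Finset V)) (R : Finset V) (x y z : V) : ℤ :=
  if (x ∈ R ∧ y ∈ R ∧ z ∈ R) ∧ (x ≠ y ∧ x ≠ z ∧ y ≠ z) ∧ ({x, y, z} : Finset V) ∈ G then 1 else 0

omit [Fintype V] in
theorem h3_comm (G : Finset (Finset V)) (R : Finset V) (x y z : V) :
    h3 G R x y z = h3 G R x z y := by
  unfold h3
  rw [Finset.insert_comm x y, Finset.pair_comm x z, Finset.insert_comm y z, ]
  have : ({x, z, y} : Finset V) = {z, y, x} := by
    ext v; simp only [mem_insert, mem_singleton]; tauto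
  rw [this]
  apply if_congr _ rfl rfl
  tauto

omit [Fintype V] in
theorem h3_rot (G : Finset (Finset V)) (R : Finset V) (x y z : V) :
    h3 G R x y z = h3 G R y z x := by
  unfold h3
  have : ({x, y, z} : Finset V) = {y, z, x} := by
    ext v; simp only [mem_insert, mem_singleton]; tauto
  rw [this]
  apply if_congr _ rfl rfl
  tauto

omit [Fintype V] in
theorem g3_nonneg (G : Finset (Finset V)) (R : Finset V) (x y z : V) : 0 ≤ g3 G R x y z := by
  unfold g3; split_ifs <;> simp

omit [Fintype V] in
theorem h3_nonneg (G : Finset (Finset V)) (R : Finset V) (x y z : V) : 0 ≤ h3 G R x y z := by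
  unfold h3; split_ifs <;> simp

omit [Fintype V] in
/-- degree sum of a pair -/
theorem pair_sum (G : Finset (Finset V)) (R : Finset V) {x y : V} (hx : x ∈ R) (hy : y ∈ R)
    (hxy : x ≠ y) :
    ∑ z ∈ R, h3 G R x y z + ∑ z ∈ R, g3 G R x y z = (R.card : ℤ) - 2 := by
  rw [← sum_add_distrib]
  have : ∀ z ∈ R, h3 G R x y z + g3 G R x y z = if z ∈ ({x, y} : Finset V) then 0 else 1 := by
    intro z hz
    unfold h3 g3
    by_cases h : z ∈ ({x, y} : Finset V)
    · rw [if_pos h, if_neg, if_neg, add_zero]
      · rintro ⟨_, ⟨_, h1, h2⟩, _⟩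
        simp only [mem_insert, mem_singleton] at h
        rcases h with rfl | rfl
        · exact h1 rfl
        · exact h2 rfl
      · rintro ⟨_, ⟨_, h1, h2⟩, _⟩
        simp only [mem_insert, mem_singleton] at h
        rcases h with rfl | rfl
        · exact h1 rfl
        · exact h2 rfl
    · rw [if_neg h]
      simp only [mem_insert, mem_singleton, not_or] at h
      by_cases hG : ({x, y, z} : Finset V) ∈ G
      · rw [if_neg, if_pos]
        · rfl
        · exact ⟨⟨hx, hy, hz⟩, ⟨hxy, fun e => h.1 e.symm, fun e => h.2 e.symm⟩, hG⟩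
        · exact fun h' => h'.2.2 hG
      · rw [if_pos, if_neg]
        · rfl
        · exact fun h' => hG h'.2.2
        · exact ⟨⟨hx, hy, hz⟩, ⟨hxy, fun e => h.1 e.symm, fun e => h.2 e.symm⟩, hG⟩
  rw [sum_congr rfl this, sum_ite, sum_const_zero, zero_add, sum_const, nsmul_eq_mul, mul_one]
  have e : R.filter (fun z => z ∉ ({x, y} : Finset V)) = R \ {x, y} := by
    ext z; simp only [mem_filter, mem_sdiff]
  rw [e, card_sdiff_of_subset, card_pair hxy]
  · have : 2 ≤ R.card := by
      rw [← card_pair hxy]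
      apply card_le_card
      intro v hv
      simp only [mem_insert, mem_singleton] at hv
      rcases hv with rfl | rfl <;> assumption
    push_cast [Nat.cast_sub this]
    rfl
  · intro v hv
    simp only [mem_insert, mem_singleton] at hv
    rcases hv with rfl | rfl <;> assumption

omit [Fintype V] in
theorem quad (G : Finset (Finset V)) (hcov : ∀ S : Finset V, S.card = 4 → ∃ e ∈ G, e ⊆ S)
    (hc3 : ∀ e ∈ G, e.card = 3) (R : Finset V) {x y z w : V} (hw : w ∈ R)
    (hxyz : h3 G R x y z = 1) (h1 : w ≠ x) (h2 : w ≠ y) (h4 : w ≠ z) :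
    1 ≤ g3 G R x y w + g3 G R x z w + g3 G R y z w := by
  unfold h3 at hxyz
  have hh : (x ∈ R ∧ y ∈ R ∧ z ∈ R) ∧ (x ≠ y ∧ x ≠ z ∧ y ≠ z) ∧ ({x, y, z} : Finset V) ∉ G := by
    by_contra hcon
    rw [if_neg hcon] at hxyz
    exact zero_ne_one hxyz
  obtain ⟨⟨hx, hy, hz⟩, ⟨hxy, hxz, hyz⟩, hG⟩ := hh
  have hcard : ({x, y, z, w} : Finset V).card = 4 := by
    rw [card_insert_of_notMem, card_insert_of_notMem, card_insert_of_notMem, card_singleton]
    · simpa using h4.symm
    · simp only [mem_insert, mem_singleton, not_or]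
      exact ⟨hyz, h2.symm⟩
    · simp only [mem_insert, mem_singleton, not_or]
      exact ⟨hxy, hxz, h1.symm⟩
  obtain ⟨e, he, hsub⟩ := hcov _ hcard
  have hc := hc3 e he
  have hmiss : ∃ v ∈ ({x, y, z, w} : Finset V), e = ({x, y, z, w} : Finset V).erase v := by
    have h1' : (({x, y, z, w} : Finset V) \ e).card = 1 := by
      rw [card_sdiff_of_subset hsub, hcard, hc]
    obtain ⟨v, hv⟩ := card_eq_one.1 h1'
    have hv' : v ∈ ({x, y, z, w} : Finset V) \ e := by rw [hv]; simp
    refine ⟨v, (mem_sdiff.1 hv').1, ?_⟩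
    rw [erase_eq, ← hv, Finset.sdiff_sdiff_eq_self hsub]
  obtain ⟨v, hv, rfl⟩ := hmiss
  simp only [mem_insert, mem_singleton] at hv
  have p1 := g3_nonneg G R x y w
  have p2 := g3_nonneg G R x z w
  have p3 := g3_nonneg G R y z w
  rcases hv with rfl | rfl | rfl | rfl
  · have : g3 G R y z w = 1 := by
      unfold g3
      rw [if_pos]
      refine ⟨⟨hy, hz, hw⟩, ⟨hyz, h2.symm, h4.symm⟩, ?_⟩
      convert he using 1
      ext u
      simp only [mem_insert, mem_singleton, mem_erase]
      constructor
      · rintro (rfl | rfl | rfl)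
        · exact ⟨hxy.symm, by simp⟩
        · exact ⟨hxz.symm, by simp⟩
        · exact ⟨h1, by simp⟩
      · rintro ⟨hu, rfl | rfl | rfl | rfl⟩
        · exact absurd rfl hu
        · simp
        · simp
        · simp
    omega
  · have : g3 G R x z w = 1 := by
      unfold g3
      rw [if_pos]
      refine ⟨⟨hx, hz, hw⟩, ⟨hxz, h1.symm, h4.symm⟩, ?_⟩
      convert he using 1
      ext u
      simp only [mem_insert, mem_singleton, mem_erase]
      constructor
      · rintro (rfl | rfl | rfl)
        · exact ⟨hxy, by simp⟩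
        · exact ⟨hyz.symm, by simp⟩
        · exact ⟨h2, by simp⟩
      · rintro ⟨hu, rfl | rfl | rfl | rfl⟩
        · simp
        · exact absurd rfl hu
        · simp
        · simp
    omega
  · have : g3 G R x y w = 1 := by
      unfold g3
      rw [if_pos]
      refine ⟨⟨hx, hy, hw⟩, ⟨hxy, h1.symm, h2.symm⟩, ?_⟩
      convert he using 1
      ext u
      simp only [mem_insert, mem_singleton, mem_erase]
      constructor
      · rintro (rfl | rfl | rfl)
        · exact ⟨hxz, by simp⟩
        · exact ⟨hyz, by simp⟩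
        · exact ⟨h4, by simp⟩
      · rintro ⟨hu, rfl | rfl | rfl | rfl⟩
        · simp
        · simp
        · exact absurd rfl hu
        · simp
    omega
  · exfalso
    apply hG
    convert he using 1
    ext u
    simp only [mem_insert, mem_singleton, mem_erase]
    constructor
    · rintro (rfl | rfl | rfl)
      · exact ⟨h1.symm, by simp⟩
      · exact ⟨h2.symm, by simp⟩
      · exact ⟨h4.symm, by simp⟩
    · rintro ⟨hu, rfl | rfl | rfl | rfl⟩
      · simp
      · simp
      · simp
      · exact absurd rfl hu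

/-- the number of edges inside `R` -/
theorem caen (G : Finset (Finset V)) (hcov : ∀ S : Finset V, S.card = 4 → ∃ e ∈ G, e ⊆ S)
    (hc3 : ∀ e ∈ G, e.card = 3) (R : Finset V) :
    R.card * (R.card - 1) * (R.card - 3) ≤ 18 * (G.filter fun e => e ⊆ R).card := by
  classical
  rcases Nat.lt_or_ge R.card 3 with hlt | hge
  · have : R.card - 3 = 0 := by omega
    rw [this]; simp
  set m : ℤ := (R.card : ℤ) with hm
  have hm3 : 3 ≤ m := by rw [hm]; exact_mod_cast hge
  set d : V → V → ℤ := fun x y => ∑ z ∈ R, h3 G R x y z with hd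
  set c : V → V → ℤ := fun x y => ∑ z ∈ R, g3 G R x y z with hcdef
  set N : ℤ := ∑ x ∈ R, ∑ y ∈ R, d x y with hN
  -- zero on the diagonal
  have d0 : ∀ x, d x x = 0 := by
    intro x
    apply sum_eq_zero
    intro z _
    unfold h3
    rw [if_neg]
    exact fun h => h.2.1.1 rfl
  have c0 : ∀ x, c x x = 0 := by
    intro x
    apply sum_eq_zero
    intro z _
    unfold g3
    rw [if_neg]
    exact fun h => h.2.1.1 rfl
  have dc : ∀ x ∈ R, ∀ y ∈ R, x ≠ y → d x y + c x y = m - 2 := fun x hx y hy h =>
    pair_sum G R hx hy h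
  -- inequality A
  have key : (m - 3) * N ≤ ∑ x ∈ R, ∑ y ∈ R, ∑ z ∈ R,
      h3 G R x y z * (c x y + c x z + c y z) := by
    rw [hN, mul_sum]
    apply sum_le_sum
    intro x hx
    rw [mul_sum]
    apply sum_le_sum
    intro y hy
    rw [hd, mul_sum]
    apply sum_le_sum
    intro z hz
    by_cases hone : h3 G R x y z = 1
    · rw [hone, mul_one, one_mul, hcdef]
      simp only
      rw [← sum_add_distrib, ← sum_add_distrib]
      have hh : (x ∈ R ∧ y ∈ R ∧ z ∈ R) ∧ (x ≠ y ∧ x ≠ z ∧ y ≠ z) ∧
          ({x, y, z} : Finset V) ∉ G := by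
        by_contra hcon
        unfold h3 at hone
        rw [if_neg hcon] at hone
        exact zero_ne_one hone
      have hsub : ({x, y, z} : Finset V) ⊆ R := by
        intro v hv
        simp only [mem_insert, mem_singleton] at hv
        rcases hv with rfl | rfl | rfl <;> assumption
      have hcard : ({x, y, z} : Finset V).card = 3 := by
        rw [card_insert_of_notMem, card_insert_of_notMem, card_singleton]
        · simpa using hh.2.1.2.2
        · simp only [mem_insert, mem_singleton, not_or]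
          exact ⟨hh.2.1.1, hh.2.1.2.1⟩
      calc m - 3 = ∑ w ∈ R \ {x, y, z}, (1 : ℤ) := by
            rw [sum_const, nsmul_eq_mul, mul_one, card_sdiff_of_subset hsub, hcard,
              Nat.cast_sub hge]
            rfl
        _ ≤ ∑ w ∈ R \ {x, y, z}, (g3 G R x y w + g3 G R x z w + g3 G R y z w) := by
            apply sum_le_sum
            intro w hw
            rw [mem_sdiff] at hw
            simp only [mem_insert, mem_singleton, not_or] at hw
            exact quad G hcov hc3 R hw.1 hone hw.2.1 hw.2.2.1 hw.2.2.2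
        _ ≤ ∑ w ∈ R, (g3 G R x y w + g3 G R x z w + g3 G R y z w) := by
            apply sum_le_sum_of_subset_of_nonneg sdiff_subset
            intro w _ _
            have p1 := g3_nonneg G R x y w
            have p2 := g3_nonneg G R x z w
            have p3 := g3_nonneg G R y z w
            omega
    · have hz0 : h3 G R x y z = 0 := by
        unfold h3 at hone ⊢
        split_ifs at hone ⊢
        · exact absurd rfl hone
        · rfl
      rw [hz0]; simp
  -- the right-hand side
  have rhs : ∑ x ∈ R, ∑ y ∈ R, ∑ z ∈ R, h3 G R x y z * (c x y + c x z + c y z) =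
      3 * ∑ x ∈ R, ∑ y ∈ R, d x y * c x y := by
    have e1 : ∑ x ∈ R, ∑ y ∈ R, ∑ z ∈ R, h3 G R x y z * c x y =
        ∑ x ∈ R, ∑ y ∈ R, d x y * c x y := by
      refine sum_congr rfl fun x _ => sum_congr rfl fun y _ => ?_
      rw [hd, sum_mul]
    have e2 : ∑ x ∈ R, ∑ y ∈ R, ∑ z ∈ R, h3 G R x y z * c x z =
        ∑ x ∈ R, ∑ y ∈ R, d x y * c x y := by
      refine sum_congr rfl fun x _ => ?_
      rw [sum_comm]
      refine sum_congr rfl fun y _ => ?_
      rw [hd, sum_mul]
      refine sum_congr rfl fun z _ => ?_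
      rw [h3_comm]
    have e3 : ∑ x ∈ R, ∑ y ∈ R, ∑ z ∈ R, h3 G R x y z * c y z =
        ∑ x ∈ R, ∑ y ∈ R, d x y * c x y := by
      rw [sum_comm]
      refine sum_congr rfl fun y _ => ?_
      rw [sum_comm]
      refine sum_congr rfl fun z _ => ?_
      rw [hd, sum_mul]
      refine sum_congr rfl fun x _ => ?_
      rw [h3_rot]
    have : ∀ x y z, h3 G R x y z * (c x y + c x z + c y z) =
        h3 G R x y z * c x y + h3 G R x y z * c x z + h3 G R x y z * c y z := by
      intro x y z; ring
    simp_rw [this, sum_add_distrib]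
    rw [e1, e2, e3]
    ring
  have dcs : ∑ x ∈ R, ∑ y ∈ R, d x y * c x y =
      (m - 2) * N - ∑ x ∈ R, ∑ y ∈ R, d x y ^ 2 := by
    rw [hN, mul_sum, ← sum_sub_distrib]
    refine sum_congr rfl fun x hx => ?_
    rw [mul_sum, ← sum_sub_distrib]
    refine sum_congr rfl fun y hy => ?_
    by_cases hxy : x = y
    · subst hxy
      rw [d0]; ring
    · have := dc x hx y hy hxy
      have h' : c x y = m - 2 - d x y := by linarith
      rw [h']; ring
  -- Cauchy
  have cs : N ^ 2 ≤ m * (m - 1) * ∑ x ∈ R, ∑ y ∈ R, d x y ^ 2 := by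
    have s1 : N = ∑ p ∈ R.offDiag, d p.1 p.2 := by
      rw [hN, ← sum_product', ← diag_union_offDiag, sum_union (disjoint_diag_offDiag R)]
      have : ∑ p ∈ R.diag, d p.1 p.2 = 0 := by
        apply sum_eq_zero
        rintro ⟨a, b⟩ hp
        rw [mem_diag] at hp
        simp only at hp ⊢
        rw [hp.2, d0]
      rw [this, zero_add]
    have s2 : ∑ x ∈ R, ∑ y ∈ R, d x y ^ 2 = ∑ p ∈ R.offDiag, d p.1 p.2 ^ 2 := by
      rw [← sum_product', ← diag_union_offDiag, sum_union (disjoint_diag_offDiag R)]
      have : ∑ p ∈ R.diag, d p.1 p.2 ^ 2 = 0 := by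
        apply sum_eq_zero
        rintro ⟨a, b⟩ hp
        rw [mem_diag] at hp
        simp only at hp ⊢
        rw [hp.2, d0]; ring
      rw [this, zero_add]
    rw [s1, s2]
    have := sq_sum_le_card_mul_sum_sq (s := R.offDiag) (f := fun p => d p.1 p.2)
    have hcard : (R.offDiag.card : ℤ) = m * (m - 1) := by
      rw [offDiag_card, Nat.cast_sub (Nat.le_mul_self _)]
      push_cast
      rw [← hm]; ring
    rw [hcard] at this
    exact this
  rw [rhs, dcs] at key
  have hN0 : 0 ≤ N := sum_nonneg fun x _ => sum_nonneg fun y _ => sum_nonneg fun z _ =>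
    h3_nonneg G R x y z
  have hN1 : 3 * N ≤ m * (m - 1) * (2 * m - 3) := by
    rcases hN0.eq_or_lt with h0 | h0
    · rw [← h0]
      nlinarith [mul_nonneg (mul_nonneg (by linarith : (0:ℤ) ≤ m) (by linarith : (0:ℤ) ≤ m - 1))
        (by linarith : (0:ℤ) ≤ 2 * m - 3)]
    · set Q := ∑ x ∈ R, ∑ y ∈ R, d x y ^ 2 with hQ
      have k1 : 3 * Q ≤ (2 * m - 3) * N := by nlinarith
      have k2 : 3 * N ^ 2 ≤ m * (m - 1) * ((2 * m - 3) * N) := by
        have hmm : 0 ≤ m * (m - 1) := mul_nonneg (by linarith) (by linarith)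
        nlinarith [mul_le_mul_of_nonneg_left k1 hmm]
      have k3 : N * (3 * N) ≤ N * (m * (m - 1) * (2 * m - 3)) := by nlinarith
      exact le_of_mul_le_mul_left k3 h0
  -- total
  have tot : N + ∑ x ∈ R, ∑ y ∈ R, c x y = m * (m - 1) * (m - 2) := by
    have s1 : N + ∑ x ∈ R, ∑ y ∈ R, c x y = ∑ x ∈ R, ∑ y ∈ R, if x = y then 0 else (m - 2) := by
      rw [hN, ← sum_add_distrib]
      refine sum_congr rfl fun x hx => ?_
      rw [← sum_add_distrib]
      refine sum_congr rfl fun y hy => ?_
      by_cases hxy : x = y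
      · subst hxy
        rw [d0, c0, if_pos rfl]; rfl
      · rw [if_neg hxy]; exact dc x hx y hy hxy
    rw [s1]
    have s2 : ∀ x ∈ R, (∑ y ∈ R, if x = y then (0:ℤ) else (m - 2)) = (m - 1) * (m - 2) := by
      intro x hx
      have e : ∀ y ∈ R, (if x = y then (0:ℤ) else (m - 2)) =
          (m - 2) - (if x = y then (m - 2) else 0) := by
        intro y _
        split_ifs <;> ring
      rw [sum_congr rfl e, sum_sub_distrib, sum_const, sum_ite_eq, if_pos hx, nsmul_eq_mul, ← hm]
      ring
    rw [sum_congr rfl s2, sum_const, nsmul_eq_mul, ← hm]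
    ring
  have hc6 : ∑ x ∈ R, ∑ y ∈ R, c x y ≤ 6 * ((G.filter fun e => e ⊆ R).card : ℤ) := by
    have h1 := card_trip (G.filter fun e => e ⊆ R)
    have h2 : ∑ x ∈ R, ∑ y ∈ R, c x y ≤ ((trip (G.filter fun e => e ⊆ R)).card : ℤ) := by
      rw [trip, card_filter]
      push_cast
      rw [← univ_product_univ, sum_product]
      have e1 : ∑ x ∈ R, ∑ y ∈ R, c x y = ∑ x ∈ R, ∑ p ∈ R ×ˢ R, g3 G R x p.1 p.2 := by
        refine sum_congr rfl fun x _ => ?_
        rw [sum_product]
      rw [e1]
      calc ∑ x ∈ R, ∑ p ∈ R ×ˢ R, g3 G R x p.1 p.2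
          ≤ ∑ x ∈ R, ∑ p : V × V, g3 G R x p.1 p.2 := by
            apply sum_le_sum
            intro x _
            apply sum_le_sum_of_subset_of_nonneg (subset_univ _)
            intro p _ _
            exact g3_nonneg _ _ _ _ _
        _ ≤ ∑ x : V, ∑ p : V × V, g3 G R x p.1 p.2 := by
            apply sum_le_sum_of_subset_of_nonneg (subset_univ _)
            intro p _ _
            exact sum_nonneg fun p _ => g3_nonneg _ _ _ _ _
        _ ≤ _ := by
            apply sum_le_sum
            intro x _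
            apply sum_le_sum
            rintro ⟨y, z⟩ _
            unfold g3
            simp only [mem_filter]
            split_ifs with h1 h2 h2
            · exact le_refl _
            · exfalso
              apply h2
              refine ⟨h1.2.1.1, h1.2.1.2.1, h1.2.1.2.2, h1.2.2, ?_⟩
              intro v hv
              simp only [mem_insert, mem_singleton] at hv
              rcases hv with rfl | rfl | rfl
              · exact h1.1.1
              · exact h1.1.2.1
              · exact h1.1.2.2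
            · norm_num
            · exact le_refl _
    have h3 : ((trip (G.filter fun e => e ⊆ R)).card : ℤ) ≤
        6 * ((G.filter fun e => e ⊆ R).card : ℤ) := by exact_mod_cast h1
    exact h2.trans h3
  have fin : m * (m - 1) * (m - 3) ≤ 18 * ((G.filter fun e => e ⊆ R).card : ℤ) := by
    nlinarith
  have : ((R.card * (R.card - 1) * (R.card - 3) : ℕ) : ℤ) = m * (m - 1) * (m - 3) := by
    push_cast [Nat.cast_sub (show 1 ≤ R.card by omega), Nat.cast_sub hge]
    rw [← hm]
  have h' : ((R.card * (R.card - 1) * (R.card - 3) : ℕ) : ℤ) ≤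
      ((18 * (G.filter fun e => e ⊆ R).card : ℕ) : ℤ) := by
    rw [this]; push_cast; exact fin
  exact_mod_cast h'

end Pool.Agent.Q276.Dih
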