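import Pool.Agent.Q276.Dih.Half

/-!
# Covering 3-graphs with a transitive group of automorphisms, in which all elements outside a
subgroup of index 2 are involutions (generalised dihedral groups)
-/

set_option autoImplicit false

open Finset

namespace Pool.Agent.Q276.Dih

open Pool.Agent.H838R3.TuranRefl

section group

variable {D : Type*} [Group D] (N : Subgroup D)

theorem conj_inv (hN : ∀ g : D, g ∉ N → g * g = 1) {s a : D} (hs : s ∉ N) (ha : a ∈ N) :
    s⁻¹ * a * s = a⁻¹ := by
  have h1 : s * s = 1 := hN s hs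
  have h2 : s * a ∉ N := fun h => hs ((N.mul_mem_cancel_right ha).1 h)
  have h3 := hN _ h2
  have hsi : s⁻¹ = s := by rw [inv_eq_iff_mul_eq_one]; exact h1
  rw [hsi]
  have : s * a * s * a = 1 := by
    have := h3
    simpa [mul_assoc] using this
  exact eq_inv_of_mul_eq_one_left this

theorem comm_of (hN : ∀ g : D, g ∉ N → g * g = 1) (hi : N.index = 2) {a b : D} (ha : a ∈ N)
    (hb : b ∈ N) : a * b = b * a := by
  have hne : ∃ s : D, s ∉ N := by
    by_contra h
    push Not at h
    have : N = ⊤ := by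
      rw [eq_top_iff]; intro x _; exact h x
    rw [this, Subgroup.index_top] at hi
    omega
  obtain ⟨s, hs⟩ := hne
  have h1 := conj_inv N hN hs ha
  have h2 := conj_inv N hN hs hb
  have h3 := conj_inv N hN hs (N.mul_mem ha hb)
  have h4 : s⁻¹ * (a * b) * s = (s⁻¹ * a * s) * (s⁻¹ * b * s) := by group
  rw [h3, h1, h2, ← mul_inv_rev] at h4
  exact (inv_injective h4)

theorem mul_mem_of (hi : N.index = 2) {a b : D} (ha : a ∉ N) (hb : b ∉ N) : a * b ∈ N :=
  (Subgroup.mul_mem_iff_of_index_two hi).2 ⟨fun h => absurd h ha, fun h => absurd h hb⟩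

theorem inv_mul_mem_of (hi : N.index = 2) {a b : D} (ha : a ∉ N) (hb : b ∉ N) : a⁻¹ * b ∈ N :=
  mul_mem_of N hi (fun h => ha (N.inv_mem_iff.1 h)) hb

end group

variable {V : Type} [Fintype V] [DecidableEq V] {D : Type} [Group D] [MulAction D V]

open Classical in
/-- the permutations given by the elements outside `N` -/
noncomputable def fam (V : Type) [Fintype V] {D : Type} [Group D] [MulAction D V]
    (N : Subgroup D) : Finset (Equiv.Perm V) :=
  univ.filter fun τ => ∃ g : D, g ∉ N ∧ τ = MulAction.toPerm g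

omit [DecidableEq V] in
theorem mem_fam {N : Subgroup D} {τ : Equiv.Perm V} :
    τ ∈ fam V N ↔ ∃ g : D, g ∉ N ∧ τ = MulAction.toPerm g := by
  simp [fam]

/-- `N` has index two, and all the elements outside `N` are involutions. -/
def Dihedral (N : Subgroup D) : Prop := N.index = 2 ∧ ∀ g : D, g ∉ N → g * g = 1

theorem broken_empty {G : Finset (Finset V)} {N : Subgroup D}
    (hG : ∀ (g : D) (e : Finset V), e ∈ G → e.image (fun x => g • x) ∈ G)
    {τ : Equiv.Perm V} (hτ : τ ∈ fam V N) : broken G τ = ∅ := by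
  obtain ⟨g, -, rfl⟩ := mem_fam.1 hτ
  rw [broken, filter_eq_empty_iff]
  rintro e he ⟨h, -⟩
  exact h (hG g e he)

omit [DecidableEq V] in
theorem fam_inv {N : Subgroup D} (hN : Dihedral N) {τ : Equiv.Perm V} (hτ : τ ∈ fam V N) :
    τ * τ = 1 := by
  obtain ⟨g, hg, rfl⟩ := mem_fam.1 hτ
  ext x
  rw [Equiv.Perm.mul_apply, MulAction.toPerm_apply, MulAction.toPerm_apply, smul_smul, hN.2 g hg,
    one_smul, Equiv.Perm.one_apply]

/-- first case: `N` is transitive -/
theorem caseA [MulAction.IsPretransitive D V] {G : Finset (Finset V)}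
    (hcov : ∀ S : Finset V, S.card = 4 → ∃ e ∈ G, e ⊆ S) (h3 : ∀ e ∈ G, e.card = 3)
    (N : Subgroup D) (hN : Dihedral N)
    (hG : ∀ (g : D) (e : Finset V), e ∈ G → e.image (fun x => g • x) ∈ G)
    (htr : ∀ x y : V, ∃ a ∈ N, a • x = y) :
    Fintype.card V * (Fintype.card V - 1) * (Fintype.card V - 3) ≤ 12 * G.card := by
  classical
  obtain ⟨s, hs⟩ : ∃ s : D, s ∉ N := by
    by_contra h
    push Not at h
    have : N = ⊤ := by
      rw [eq_top_iff]; intro x _; exact h x
    have hi := hN.1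
    rw [this, Subgroup.index_top] at hi
    omega
  have hone : ∀ x y : V, ((fam V N).filter fun τ => τ x = y).card = 1 := by
    intro x y
    obtain ⟨a, ha, hay⟩ := htr (s • x) y
    rw [card_eq_one]
    refine ⟨MulAction.toPerm (a * s), ?_⟩
    have has : a * s ∉ N := fun h => hs ((N.mul_mem_cancel_left ha).1 h)
    ext τ
    rw [mem_filter, mem_singleton, mem_fam]
    constructor
    · rintro ⟨⟨g, hg, rfl⟩, hgx⟩
      rw [MulAction.toPerm_apply] at hgx
      have hh : (a * s)⁻¹ * g ∈ N := inv_mul_mem_of N hN.1 has hg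
      have hfix : ((a * s)⁻¹ * g) • x = x := by
        rw [mul_smul, hgx, inv_smul_eq_iff, mul_smul, hay]
      ext z
      rw [MulAction.toPerm_apply, MulAction.toPerm_apply]
      obtain ⟨b, hb, rfl⟩ := htr x z
      have h1 : ((a * s)⁻¹ * g) • b • x = b • x := by
        rw [smul_smul, comm_of N hN.2 hN.1 hh hb, ← smul_smul, hfix]
      rw [mul_smul, inv_smul_eq_iff] at h1
      exact h1
    · rintro rfl
      exact ⟨⟨a * s, has, rfl⟩, by rw [MulAction.toPerm_apply, mul_smul, hay]⟩
  rcases isEmpty_or_nonempty V with hV | ⟨⟨x0⟩⟩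
  · rw [Fintype.card_eq_zero]; simp
  have hcard : (fam V N).card ≤ Fintype.card V := by
    rw [card_eq_sum_card_fiberwise (f := fun τ : Equiv.Perm V => τ x0) (t := univ)]
    · rw [sum_congr rfl (g := fun _ => 1)]
      · simp
      · intro y _
        exact hone x0 y
    · intro τ _
      simp
  have := sharp hcov h3 (fam V N) (fun τ hτ => fam_inv hN hτ) (fun x y _ => hone x y) hcard
  have h0 : ∑ τ ∈ fam V N, (broken G τ).card = 0 := by
    apply sum_eq_zero
    intro τ hτ
    rw [broken_empty hG hτ, card_empty]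
  rw [h0] at this
  omega

/-- second case: `N` is not transitive -/
theorem caseB [MulAction.IsPretransitive D V] {G : Finset (Finset V)}
    (hcov : ∀ S : Finset V, S.card = 4 → ∃ e ∈ G, e ⊆ S) (h3 : ∀ e ∈ G, e.card = 3)
    (N : Subgroup D) (hN : Dihedral N)
    (hG : ∀ (g : D) (e : Finset V), e ∈ G → e.image (fun x => g • x) ∈ G)
    (htr : ¬ ∀ x y : V, ∃ a ∈ N, a • x = y) :
    ∃ m : ℕ, Fintype.card V = 2 * m ∧ m * (m - 1) * (11 * m - 6) ≤ 18 * G.card := by
  classical
  push Not at htr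
  obtain ⟨x0, y0, hxy0⟩ := htr
  obtain ⟨s, hs⟩ : ∃ s : D, s ∉ N := by
    by_contra h
    push Not at h
    have : N = ⊤ := by
      rw [eq_top_iff]; intro x _; exact h x
    have hi := hN.1
    rw [this, Subgroup.index_top] at hi
    omega
  set R : Finset V := univ.filter fun x => ∃ a ∈ N, a • x0 = x with hR
  have memR : ∀ x, x ∈ R ↔ ∃ a ∈ N, a • x0 = x := by
    intro x; rw [hR, mem_filter]; simp
  -- `N` is transitive on `R`
  have trR : ∀ x ∈ R, ∀ y ∈ R, ∃ a ∈ N, a • x = y := by
    intro x hx y hy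
    obtain ⟨a, ha, rfl⟩ := (memR x).1 hx
    obtain ⟨b, hb, rfl⟩ := (memR y).1 hy
    exact ⟨b * a⁻¹, N.mul_mem hb (N.inv_mem ha), by rw [mul_smul, inv_smul_smul]⟩
  have inR : ∀ x ∈ R, ∀ a ∈ N, a • x ∈ R := by
    intro x hx a ha
    obtain ⟨b, hb, rfl⟩ := (memR x).1 hx
    exact (memR _).2 ⟨a * b, N.mul_mem ha hb, by rw [mul_smul]⟩
  have out1 : ∀ g ∉ N, ∀ x ∈ R, g • x ∉ R := by
    intro g hg x hx hgx
    obtain ⟨a, ha, hax⟩ := trR x hx _ hgx
    have hk : a⁻¹ * g ∉ N := fun h => hg ((N.mul_mem_cancel_left (N.inv_mem ha)).1 h)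
    have hfix : (a⁻¹ * g) • x = x := by rw [mul_smul, ← hax, inv_smul_smul]
    obtain ⟨d, hd⟩ := MulAction.exists_smul_eq D x y0
    obtain ⟨b, hb, hbx⟩ := (memR x).1 hx
    by_cases hdN : d ∈ N
    · exact hxy0 (d * b) (N.mul_mem hdN hb) (by rw [mul_smul, hbx, hd])
    · have h1 : d * (a⁻¹ * g) ∈ N := mul_mem_of N hN.1 hdN hk
      exact hxy0 (d * (a⁻¹ * g) * b) (N.mul_mem h1 hb) (by
        rw [mul_smul, hbx, mul_smul, hfix, hd])
  have out2 : ∀ g ∉ N, ∀ x ∉ R, g • x ∈ R := by
    intro g hg x hx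
    obtain ⟨d, hd⟩ := MulAction.exists_smul_eq D x0 x
    have hdN : d ∉ N := fun h => hx ((memR x).2 ⟨d, h, hd⟩)
    exact (memR _).2 ⟨g * d, mul_mem_of N hN.1 hg hdN, by rw [mul_smul, hd]⟩
  have hfam : Exchanging R (fam V N) := by
    refine ⟨fun τ hτ => fam_inv hN hτ, ?_, ?_⟩
    · intro τ hτ x
      obtain ⟨g, hg, rfl⟩ := mem_fam.1 hτ
      rw [MulAction.toPerm_apply]
      exact ⟨fun h hx => out1 g hg x hx h, fun h => out2 g hg x h⟩
    · intro x hx y hy
      obtain ⟨d, hd⟩ := MulAction.exists_smul_eq D x y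
      have hdN : d ∉ N := fun h => hy (hd ▸ inR x hx d h)
      rw [card_eq_one]
      refine ⟨MulAction.toPerm d, ?_⟩
      ext τ
      rw [mem_filter, mem_singleton, mem_fam]
      constructor
      · rintro ⟨⟨g, hg, rfl⟩, hgx⟩
        rw [MulAction.toPerm_apply] at hgx
        have hh : d⁻¹ * g ∈ N := inv_mul_mem_of N hN.1 hdN hg
        have hfix : (d⁻¹ * g) • x = x := by
          rw [mul_smul, hgx, inv_smul_eq_iff, hd]
        have hfixR : ∀ z ∈ R, (d⁻¹ * g) • z = z := by
          intro z hz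
          obtain ⟨b, hb, rfl⟩ := trR x hx z hz
          rw [smul_smul, comm_of N hN.2 hN.1 hh hb, ← smul_smul, hfix]
        have hfixall : ∀ z : V, (d⁻¹ * g) • z = z := by
          intro z
          by_cases hz : z ∈ R
          · exact hfixR z hz
          · have hdz := out2 d⁻¹ (fun h => hdN (N.inv_mem_iff.1 h)) z hz
            have h1 := conj_inv N hN.2 hdN hh
            have h2 : (d⁻¹ * g) • z = d • (d⁻¹ * (d⁻¹ * g) * d) • d⁻¹ • z := by
              rw [smul_smul, smul_smul]
              congr 1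
              group
            rw [h2, h1]
            have h4 : (d⁻¹ * g)⁻¹ • d⁻¹ • z = d⁻¹ • z := by
              rw [inv_smul_eq_iff, hfixR _ hdz]
            rw [h4, smul_inv_smul]
        ext z
        rw [MulAction.toPerm_apply, MulAction.toPerm_apply]
        have := hfixall z
        rw [mul_smul, inv_smul_eq_iff] at this
        exact this
      · rintro rfl
        exact ⟨⟨d, hdN, rfl⟩, by rw [MulAction.toPerm_apply, hd]⟩
  have hcard : (Rᶜ).card = R.card := by
    apply le_antisymm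
    · apply card_le_card_of_injOn (fun x => s • x)
      · intro x hx
        rw [mem_coe, mem_compl] at hx
        exact out2 s hs x hx
      · exact fun a _ b _ h => MulAction.injective s h
    · apply card_le_card_of_injOn (fun x => s • x)
      · intro x hx
        rw [mem_coe, mem_compl]
        exact out1 s hs x hx
      · exact fun a _ b _ h => MulAction.injective s h
  have hV : Fintype.card V = 2 * R.card := by
    have := card_add_card_compl R
    omega
  have := lower hcov h3 R (fam V N) hfam hV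
  have h0 : ∑ τ ∈ fam V N, (broken G τ).card = 0 := by
    apply sum_eq_zero
    intro τ hτ
    rw [broken_empty hG hτ, card_empty]
  rw [h0] at this
  exact ⟨R.card, hV, by omega⟩

/-- comparison with Turán's construction -/
theorem turan_two (m B g : ℕ) (h : m * (m - 1) * (11 * m - 6) ≤ 18 * g + 9 * B)
    (hB : 27 * B ≤ m ^ 3) : turan (2 * m) ≤ g := by
  unfold turan
  obtain ⟨k, hk⟩ : ∃ k, 2 * m / 3 = k := ⟨_, rfl⟩
  rw [hk]
  split_ifs with h1 h2
  · obtain ⟨j, rfl⟩ : ∃ j, m = 3 * j := ⟨m / 3, by omega⟩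
    obtain rfl : k = 2 * j := by omega
    rcases j with _ | j
    · simp
    · have e1 : 3 * (j + 1) - 1 = 3 * j + 2 := by omega
      have e2 : 11 * (3 * (j + 1)) - 6 = 33 * j + 27 := by omega
      have e3 : 2 * (j + 1) - 1 = 2 * j + 1 := by omega
      have e4 : 2 * (2 * (j + 1)) - 1 = 4 * j + 3 := by omega
      rw [e1, e2] at h
      rw [e3, e4]
      nlinarith [h, hB]
  · obtain ⟨j, rfl⟩ : ∃ j, m = 3 * j + 2 := ⟨m / 3, by omega⟩
    obtain rfl : k = 2 * j + 1 := by omega
    have e1 : 3 * j + 2 - 1 = 3 * j + 1 := by omega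
    have e2 : 11 * (3 * j + 2) - 6 = 33 * j + 16 := by omega
    have e3 : 2 * (2 * j + 1) - 1 = 4 * j + 1 := by omega
    rw [e1, e2] at h
    rw [e3]
    nlinarith [h, hB]
  · obtain ⟨j, rfl⟩ : ∃ j, m = 3 * j + 1 := ⟨m / 3, by omega⟩
    obtain rfl : k = 2 * j := by omega
    rcases j with _ | j
    · simp
    · have e1 : 3 * (j + 1) + 1 - 1 = 3 * j + 3 := by omega
      have e2 : 11 * (3 * (j + 1) + 1) - 6 = 33 * j + 38 := by omega
      rw [e1, e2] at h
      nlinarith [h, hB]

/-- **Main theorem for groups.** -/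
theorem main [MulAction.IsPretransitive D V] {G : Finset (Finset V)}
    (hcov : ∀ S : Finset V, S.card = 4 → ∃ e ∈ G, e ⊆ S) (h3 : ∀ e ∈ G, e.card = 3)
    (N : Subgroup D) (hN : Dihedral N)
    (hG : ∀ (g : D) (e : Finset V), e ∈ G → e.image (fun x => g • x) ∈ G) :
    turan (Fintype.card V) ≤ G.card ∧ (14 ≤ Fintype.card V →
      Fintype.card V * (Fintype.card V - 2) * (11 * Fintype.card V - 12) ≤ 144 * G.card) := by
  by_cases htr : ∀ x y : V, ∃ a ∈ N, a • x = y
  · have h := caseA hcov h3 N hN hG htr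
    refine ⟨?_, ?_⟩
    · have := (turan_le (Fintype.card V)).trans h
      omega
    · intro h14
      obtain ⟨k, hk⟩ : ∃ k, Fintype.card V = k + 14 := ⟨Fintype.card V - 14, by omega⟩
      rw [hk] at h ⊢
      have a1 : k + 14 - 1 = k + 13 := by omega
      have a2 : k + 14 - 3 = k + 11 := by omega
      have a3 : k + 14 - 2 = k + 12 := by omega
      have a4 : 11 * (k + 14) - 12 = 11 * k + 142 := by omega
      rw [a1, a2] at h
      rw [a3, a4]
      nlinarith [h, Nat.zero_le (k ^ 3), Nat.zero_le (k ^ 2), Nat.zero_le k]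
  · obtain ⟨m, hm, h⟩ := caseB hcov h3 N hN hG htr
    refine ⟨?_, ?_⟩
    · rw [hm]
      exact turan_two m 0 _ (by omega) (by simp)
    · intro h14
      rw [hm]
      have h7 : 7 ≤ m := by omega
      obtain ⟨k, rfl⟩ : ∃ k, m = k + 7 := ⟨m - 7, by omega⟩
      have a1 : k + 7 - 1 = k + 6 := by omega
      have a2 : 11 * (k + 7) - 6 = 11 * k + 71 := by omega
      have a3 : 2 * (k + 7) - 2 = 2 * k + 12 := by omega
      have a4 : 11 * (2 * (k + 7)) - 12 = 22 * k + 142 := by omega
      rw [a1, a2] at h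
      rw [a3, a4]
      nlinarith [h]

end Pool.Agent.Q276.Dih
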