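import Pool.Agent.Q276.Dih.Caen

/-!
# Covering 3-graphs and involutions which exchange the two halves of the vertex set
-/

set_option autoImplicit false

open Finset

namespace Pool.Agent.Q276.Dih

open Pool.Agent.H838R3.TuranRefl

variable {V : Type} [Fintype V] [DecidableEq V]

/-- the edges which meet `R` and its complement -/
def mixed (G : Finset (Finset V)) (R : Finset V) : Finset (Finset V) :=
  G.filter fun e => (∃ x ∈ e, x ∈ R) ∧ ∃ x ∈ e, x ∉ R

/-- ordered edges with the first two points on different sides -/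
def mtrip (G : Finset (Finset V)) (R : Finset V) : Finset (V × V × V) :=
  (trip G).filter fun t => ¬ (t.1 ∈ R ↔ t.2.1 ∈ R)

theorem card_mtrip (G : Finset (Finset V)) (R : Finset V) :
    (mtrip G R).card ≤ 4 * (mixed G R).card := by
  classical
  have hmap : ∀ t ∈ mtrip G R, ({t.1, t.2.1, t.2.2} : Finset V) ∈ mixed G R := by
    rintro ⟨a, b, c⟩ ht
    simp only [mtrip, trip, mem_filter, mem_univ, true_and] at ht
    obtain ⟨⟨-, -, -, hG⟩, hs⟩ := ht
    simp only [mixed, mem_filter]
    refine ⟨hG, ?_⟩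
    by_cases ha : a ∈ R
    · have hb : b ∉ R := fun hb => hs ⟨fun _ => hb, fun _ => ha⟩
      exact ⟨⟨a, by simp, ha⟩, ⟨b, by simp, hb⟩⟩
    · have hb : b ∈ R := by
        by_contra hb
        exact hs ⟨fun h => absurd h ha, fun h => absurd h hb⟩
      exact ⟨⟨b, by simp, hb⟩, ⟨a, by simp, ha⟩⟩
  refine Finset.card_le_mul_card_image_of_maps_to (f := fun t : V × V × V =>
    ({t.1, t.2.1, t.2.2} : Finset V)) hmap 4 ?_
  intro e he
  by_cases hne : ((mtrip G R).filter fun t => ({t.1, t.2.1, t.2.2} : Finset V) = e).Nonempty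
  · obtain ⟨⟨a, b, c⟩, h⟩ := hne
    simp only [mtrip, trip, mem_filter, mem_univ, true_and] at h
    obtain ⟨⟨⟨hab, hac, hbc, hG⟩, hs⟩, rfl⟩ := h
    by_cases hca : c ∈ R ↔ a ∈ R
    · have hsub : ((mtrip G R).filter fun t =>
          ({t.1, t.2.1, t.2.2} : Finset V) = {a, b, c}) ⊆
          {(a, b, c), (b, a, c), (c, b, a), (b, c, a)} := by
        rintro ⟨x, y, z⟩ h
        simp only [mtrip, trip, mem_filter, mem_univ, true_and] at h
        obtain ⟨⟨⟨hxy, hxz, hyz, -⟩, hs'⟩, h⟩ := h
        have hx : x ∈ ({a, b, c} : Finset V) := by rw [← h]; simp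
        have hy : y ∈ ({a, b, c} : Finset V) := by rw [← h]; simp
        have hz : z ∈ ({a, b, c} : Finset V) := by rw [← h]; simp
        clear h hG he
        simp only [mem_insert, mem_singleton] at hx hy hz
        simp only [mem_insert, mem_singleton, Prod.mk.injEq]
        rcases hx with rfl | rfl | rfl <;> rcases hy with rfl | rfl | rfl <;>
          rcases hz with rfl | rfl | rfl <;> first | tauto | simp_all
      exact (card_le_card hsub).trans card_le_four
    · have hsub : ((mtrip G R).filter fun t =>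
          ({t.1, t.2.1, t.2.2} : Finset V) = {a, b, c}) ⊆
          {(a, b, c), (b, a, c), (c, a, b), (a, c, b)} := by
        rintro ⟨x, y, z⟩ h
        simp only [mtrip, trip, mem_filter, mem_univ, true_and] at h
        obtain ⟨⟨⟨hxy, hxz, hyz, -⟩, hs'⟩, h⟩ := h
        have hx : x ∈ ({a, b, c} : Finset V) := by rw [← h]; simp
        have hy : y ∈ ({a, b, c} : Finset V) := by rw [← h]; simp
        have hz : z ∈ ({a, b, c} : Finset V) := by rw [← h]; simp
        clear h hG he
        simp only [mem_insert, mem_singleton] at hx hy hz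
        simp only [mem_insert, mem_singleton, Prod.mk.injEq]
        rcases hx with rfl | rfl | rfl <;> rcases hy with rfl | rfl | rfl <;>
          rcases hz with rfl | rfl | rfl <;> first | tauto | simp_all
      exact (card_le_card hsub).trans card_le_four
  · rw [not_nonempty_iff_eq_empty] at hne
    rw [hne]
    simp

theorem step1 {G : Finset (Finset V)}
    (hcov : ∀ S : Finset V, S.card = 4 → ∃ e ∈ G, e ⊆ S) (h3 : ∀ e ∈ G, e.card = 3)
    {τ : Equiv.Perm V} (hτ : τ * τ = 1) : τ.support.card * (τ.support.card - 2) ≤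
      2 * ((prs τ).filter fun p => ({p.1, τ p.1, p.2} : Finset V) ∈ G).card +
        4 * (broken G τ).card := by
  classical
  rw [← card_prs τ]
  have hsub : prs τ ⊆ (((prs τ).filter fun p => ({p.1, τ p.1, p.2} : Finset V) ∈ G) ∪
      ((prs τ).filter fun p => ({p.2, τ p.2, p.1} : Finset V) ∈ G)) ∪
      (((prs τ).filter fun p => ({p.1, τ p.1, τ p.2} : Finset V) ∈ broken G τ) ∪
      ((prs τ).filter fun p => ({p.2, τ p.2, τ p.1} : Finset V) ∈ broken G τ)) := by
    intro p hp
    simp only [mem_union, mem_filter]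
    rcases key hcov h3 hτ hp with h | h | h | h
    · exact Or.inl (Or.inl ⟨hp, h⟩)
    · exact Or.inl (Or.inr ⟨hp, h⟩)
    · exact Or.inr (Or.inl ⟨hp, h⟩)
    · exact Or.inr (Or.inr ⟨hp, h⟩)
  have hswap : ((prs τ).filter fun p => ({p.2, τ p.2, p.1} : Finset V) ∈ G).card ≤
      ((prs τ).filter fun p => ({p.1, τ p.1, p.2} : Finset V) ∈ G).card := by
    apply card_le_card_of_injOn Prod.swap
    · intro p hp
      simp only [coe_filter, Set.mem_ofPred_eq] at hp ⊢
      exact ⟨swap_mem hτ hp.1, hp.2⟩
    · exact fun a _ b _ h => Prod.swap_injective h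
  have hswap2 : ((prs τ).filter fun p => ({p.2, τ p.2, τ p.1} : Finset V) ∈ broken G τ).card ≤
      ((prs τ).filter fun p => ({p.1, τ p.1, τ p.2} : Finset V) ∈ broken G τ).card := by
    apply card_le_card_of_injOn Prod.swap
    · intro p hp
      simp only [coe_filter, Set.mem_ofPred_eq] at hp ⊢
      exact ⟨swap_mem hτ hp.1, hp.2⟩
    · exact fun a _ b _ h => Prod.swap_injective h
  have h1 := (card_le_card hsub).trans (card_union_le _ _)
  have h2 := card_union_le ((prs τ).filter fun p => ({p.1, τ p.1, p.2} : Finset V) ∈ G)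
    ((prs τ).filter fun p => ({p.2, τ p.2, p.1} : Finset V) ∈ G)
  have h3 := card_union_le
    ((prs τ).filter fun p => ({p.1, τ p.1, τ p.2} : Finset V) ∈ broken G τ)
    ((prs τ).filter fun p => ({p.2, τ p.2, τ p.1} : Finset V) ∈ broken G τ)
  have h4 := card_broken_le (G := G) hτ
  omega

/-- The family `T` of involutions exchanges `R` and its complement, and every point of `R` is
exchanged with every other point by exactly one of them. -/
def Exchanging (R : Finset V) (T : Finset (Equiv.Perm V)) : Prop :=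
  (∀ τ ∈ T, τ * τ = 1) ∧ (∀ τ ∈ T, ∀ x, τ x ∈ R ↔ x ∉ R) ∧
    ∀ x ∈ R, ∀ y ∉ R, (T.filter fun τ => τ x = y).card = 1

/-- the general inequality -/
theorem general {G : Finset (Finset V)}
    (hcov : ∀ S : Finset V, S.card = 4 → ∃ e ∈ G, e ⊆ S) (h3 : ∀ e ∈ G, e.card = 3)
    (R : Finset V) (T : Finset (Equiv.Perm V)) (hT : Exchanging R T)
    (hR : Fintype.card V = 2 * R.card) :
    R.card ^ 2 * (R.card - 1) ≤ 2 * (mixed G R).card + ∑ τ ∈ T, (broken G τ).card := by
  classical
  obtain ⟨hinv, hex, hone⟩ := hT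
  set m := R.card with hm
  rcases Nat.eq_zero_or_pos m with h0 | hpos
  · rw [h0]; simp
  have hne : R.Nonempty := by rw [← card_pos]; exact hpos
  obtain ⟨x0, hx0⟩ := hne
  have hc : (Rᶜ).card = m := by
    rw [card_compl, hR]; omega
  have hTm : T.card = m := by
    rw [card_eq_sum_card_fiberwise (f := fun τ : Equiv.Perm V => τ x0) (t := Rᶜ)]
    · rw [sum_congr rfl (g := fun _ => 1)]
      · rw [sum_const, hc]; simp
      · intro y hy
        exact hone x0 hx0 y (mem_compl.1 hy)
    · intro τ hτ
      simp only [coe_compl, Set.mem_compl_iff, mem_coe]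
      intro h
      exact (hex τ hτ x0).1 h hx0
  have hsupp : ∀ τ ∈ T, τ.support.card = 2 * m := by
    intro τ hτ
    rw [← hR, ← card_univ]
    congr 1
    ext x
    simp only [Equiv.Perm.mem_support, mem_univ, iff_true]
    intro h
    have := hex τ hτ x
    rw [h] at this
    tauto
  have s1 : ∀ τ ∈ T, 2 * m * (2 * m - 2) ≤
      2 * ((prs τ).filter fun p => ({p.1, τ p.1, p.2} : Finset V) ∈ G).card +
        4 * (broken G τ).card := by
    intro τ hτ
    have := step1 hcov h3 (hinv τ hτ)
    rwa [hsupp τ hτ] at this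
  have step2 : ∑ τ ∈ T, ((prs τ).filter fun p => ({p.1, τ p.1, p.2} : Finset V) ∈ G).card ≤
      (mtrip G R).card := by
    have h1 : ∀ τ ∈ T, ((prs τ).filter fun p => ({p.1, τ p.1, p.2} : Finset V) ∈ G).card ≤
        ∑ t ∈ mtrip G R, if τ t.1 = t.2.1 then 1 else 0 := by
      intro τ hτ
      rw [← sum_filter, sum_const, smul_eq_mul, mul_one]
      apply card_le_card_of_injOn (fun p => (p.1, τ p.1, p.2))
      · rintro ⟨x, z⟩ hp
        simp only [coe_filter, prs, mem_filter, mem_univ, true_and, Set.mem_ofPred_eq, trip,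
          mtrip] at hp ⊢
        obtain ⟨⟨h1, h2, h4, h5⟩, h⟩ := hp
        refine ⟨⟨⟨h1.symm, h4.symm, h5.symm, h⟩, ?_⟩, trivial⟩
        have := hex τ hτ x
        tauto
      · rintro ⟨a, b⟩ _ ⟨c, d⟩ _ h
        simp only [Prod.mk.injEq] at h ⊢
        exact ⟨h.1, h.2.2⟩
    refine (sum_le_sum h1).trans ?_
    rw [sum_comm]
    have h2 : ∀ t ∈ mtrip G R, (∑ τ ∈ T, if τ t.1 = t.2.1 then 1 else 0) ≤ 1 := by
      rintro ⟨x, y, z⟩ ht
      simp only [mtrip, trip, mem_filter, mem_univ, true_and] at ht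
      simp only
      rw [← sum_filter, sum_const, smul_eq_mul, mul_one]
      by_cases hx : x ∈ R
      · have hy : y ∉ R := fun hy => ht.2 ⟨fun _ => hy, fun _ => hx⟩
        exact (hone x hx y hy).le
      · have hy : y ∈ R := by
          by_contra hy
          exact ht.2 ⟨fun h => absurd h hx, fun h => absurd h hy⟩
        rw [← hone y hy x hx]
        apply card_le_card
        intro τ hτ
        rw [mem_filter] at hτ ⊢
        refine ⟨hτ.1, ?_⟩
        rw [← hτ.2, inv_apply (hinv τ hτ.1)]
    refine (sum_le_sum h2).trans ?_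
    simp
  have hsum := sum_le_sum s1
  rw [sum_const, smul_eq_mul, hTm, sum_add_distrib, ← mul_sum, ← mul_sum] at hsum
  have hmt := card_mtrip G R
  have e : m * (2 * m * (2 * m - 2)) = 4 * (m ^ 2 * (m - 1)) := by
    have : 2 * m - 2 = 2 * (m - 1) := by omega
    rw [this]; ring
  rw [e] at hsum
  omega

theorem split (G : Finset (Finset V)) (R : Finset V) :
    (mixed G R).card + (G.filter fun e => e ⊆ R).card + (G.filter fun e => e ⊆ Rᶜ).card ≤
      G.card + (G.filter fun e => e = ∅).card := by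
  classical
  have h : ∀ e ∈ G, (if (∃ x ∈ e, x ∈ R) ∧ ∃ x ∈ e, x ∉ R then 1 else 0) +
      (if e ⊆ R then 1 else 0) + (if e ⊆ Rᶜ then 1 else 0) ≤ 1 + (if e = ∅ then 1 else 0) := by
    intro e _
    by_cases h0 : e = ∅
    · subst h0; simp
    · rw [if_neg h0]
      obtain ⟨x, hx⟩ := nonempty_iff_ne_empty.2 h0
      by_cases h1 : e ⊆ R
      · rw [if_pos h1, if_neg, if_neg]
        · intro h
          exact (mem_compl.1 (h hx)) (h1 hx)
        · rintro ⟨_, y, hy, hyR⟩
          exact hyR (h1 hy)
      · rw [if_neg h1]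
        by_cases h2 : e ⊆ Rᶜ
        · rw [if_pos h2, if_neg]
          rintro ⟨⟨y, hy, hyR⟩, _⟩
          exact (mem_compl.1 (h2 hy)) hyR
        · rw [if_neg h2]
          split_ifs <;> simp
  have := sum_le_sum h
  rw [sum_add_distrib, sum_add_distrib, sum_add_distrib, ← card_filter, ← card_filter,
    ← card_filter, ← card_filter, sum_const, smul_eq_mul, mul_one] at this
  exact this

/-- the lower bound -/
theorem lower {G : Finset (Finset V)}
    (hcov : ∀ S : Finset V, S.card = 4 → ∃ e ∈ G, e ⊆ S) (h3 : ∀ e ∈ G, e.card = 3)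
    (R : Finset V) (T : Finset (Equiv.Perm V)) (hT : Exchanging R T)
    (hR : Fintype.card V = 2 * R.card) :
    R.card * (R.card - 1) * (11 * R.card - 6) ≤
      18 * G.card + 9 * ∑ τ ∈ T, (broken G τ).card := by
  classical
  have h1 := general hcov h3 R T hT hR
  have h2 := caen G hcov h3 R
  have h4 := caen G hcov h3 Rᶜ
  have hc : (Rᶜ).card = R.card := by
    rw [card_compl, hR]; omega
  rw [hc] at h4
  have h5 := split G R
  have h6 : (G.filter fun e => e = ∅).card = 0 := by
    rw [card_eq_zero, filter_eq_empty_iff]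
    rintro e he rfl
    have := h3 _ he
    simp at this
  set B := ∑ τ ∈ T, (broken G τ).card
  have e : R.card * (R.card - 1) * (11 * R.card - 6) ≤
      9 * (R.card ^ 2 * (R.card - 1)) + 2 * (R.card * (R.card - 1) * (R.card - 3)) := by
    rcases Nat.lt_or_ge R.card 3 with h | h
    · interval_cases R.card <;> norm_num
    · obtain ⟨k, hk⟩ : ∃ k, R.card = k + 3 := ⟨R.card - 3, by omega⟩
      rw [hk]
      have a1 : k + 3 - 1 = k + 2 := by omega
      have a2 : 11 * (k + 3) - 6 = 11 * k + 27 := by omega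
      have a3 : k + 3 - 3 = k := by omega
      rw [a1, a2, a3]
      apply le_of_eq
      ring
  omega

end Pool.Agent.Q276.Dih
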